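import Pool.Agent.MP_72b677_al.H37.Core
import Pool.Agent.MP_72b677_al.H37.Sum

/-!
A finite-dimensional local algebra `A`, not a truncated polynomial ring, and a nonzero finite
module `M`, not free, with `l(Der_k(A, M)) = l(M) - l(socle M)`.
-/

namespace Pool.Agent.Results.MP_72b677_al.Equality

open Module Pool.Agent.MP_72b677_al.H37

theorem result (k : Type) [Field k] [CharZero k] :
    ∃ (A : Type) (_ : CommRing A) (_ : Algebra k A) (_ : IsLocalRing A) (_ : Module.Finite k A)
      (M : Type) (_ : AddCommGroup M) (_ : Module A M) (_ : Module k M) (_ : IsScalarTower k A M),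
      Function.Surjective (algebraMap k (IsLocalRing.ResidueField A)) ∧ Module.Finite A M ∧
      Nontrivial M ∧
      Module.length A (Derivation k A M) =
        Module.length A M -
          Module.length A (Submodule.torsionBySet A M (IsLocalRing.maximalIdeal A)) ∧
      (∀ n : ℕ, IsEmpty (A ≃ₐ[k] Polynomial k ⧸ Ideal.span {(Polynomial.X : Polynomial k) ^ n})) ∧
      ¬ Module.Free A M := by
  obtain ⟨A, _, _, _, _, h1, h2, h3, a, b, ha, hb, hab⟩ := core k
  have hart : IsArtinianRing A := IsArtinianRing.of_finite k _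
  have hf : Module.Finite k (IsLocalRing.ResidueField A) := Module.Finite.trans A _
  have hs : IsSimpleModule A (IsLocalRing.ResidueField A) :=
    isSimpleModule_iff_quot_maximal.2 ⟨_, inferInstance, ⟨LinearEquiv.refl _ _⟩⟩
  have h4 : length A (IsLocalRing.ResidueField A) = 1 := length_eq_one _ _
  have h5 : Submodule.torsionBySet A (IsLocalRing.ResidueField A)
      (IsLocalRing.maximalIdeal A) = ⊤ := by
    refine eq_top_iff.2 fun x _ => (Submodule.mem_torsionBySet_iff _ _).2 fun c => ?_
    rw [Algebra.smul_def, IsLocalRing.ResidueField.algebraMap_eq,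
      (IsLocalRing.residue_eq_zero_iff _).2 c.2, zero_mul]
  obtain ⟨e, he⟩ := ENat.ne_top_iff_exists.1
    (der_ne_top (k := k) (A := A) (M := IsLocalRing.ResidueField A))
  obtain ⟨d, hd⟩ := ENat.ne_top_iff_exists.1 (der_ne_top (k := k) (A := A) (M := A))
  obtain ⟨l, hl⟩ := ENat.ne_top_iff_exists.1 (length_ne_top (R := A) (M := A))
  rw [← hd, ← hl, ← Nat.cast_one, ← Nat.cast_add, Nat.cast_lt] at h3
  obtain ⟨δ, rfl⟩ := Nat.exists_eq_add_of_lt h3
  refine ⟨A, _, _, ‹_›, ‹_›, (Fin e → A) × (Fin (δ + 1) → IsLocalRing.ResidueField A),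
    inferInstance, inferInstance, inferInstance, inferInstance, h1, inferInstance, inferInstance,
    ?_, fun n => ⟨fun f => hab (f.injective ?_)⟩, fun hfree => hab ?_⟩
  · rw [der_prod, der_pi, der_pi, soc_prod, soc_pi, soc_pi, length_prod, length_pi_of_fintype,
      length_pi_of_fintype, h2, h5, length_top, h4, ← he, ← hd, ← hl]
    simp only [Finset.sum_const, Finset.card_univ, Fintype.card_fin, nsmul_eq_mul, mul_one]
    norm_cast
    rw [eq_comm, Nat.sub_eq_iff_eq_add (by nlinarith)]
    ring
  · rw [map_mul, map_zero]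
    exact trunc_mul n _ _ (by rw [← map_pow, ha, map_zero]) (by rw [← map_pow, hb, map_zero])
  · have hp : Module.Projective A (IsLocalRing.ResidueField A) :=
      Module.Projective.of_split
        (M := (Fin e → A) × (Fin (δ + 1) → IsLocalRing.ResidueField A))
        (LinearMap.inr A _ _ ∘ₗ LinearMap.single A (fun _ => _) (0 : Fin (δ + 1)))
        (LinearMap.proj (0 : Fin (δ + 1)) ∘ₗ LinearMap.snd A _ _) (by ext; simp)
    obtain ⟨s, hs'⟩ := LinearMap.exists_rightInverse_of_surjective
      (Algebra.linearMap A (IsLocalRing.ResidueField A))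
      (LinearMap.range_eq_top.2 IsLocalRing.residue_surjective)
    have h6 : IsLocalRing.residue A (s 1) = 1 := LinearMap.congr_fun hs' 1
    have h7 : IsUnit (s 1) := by
      rw [← IsLocalRing.residue_ne_zero_iff_isUnit, h6]
      exact one_ne_zero
    have h8 : a • (1 : IsLocalRing.ResidueField A) = 0 := by
      have h9 : (a • (1 : IsLocalRing.ResidueField A)) ^ 2 = 0 := by
        rw [smul_pow, ha, zero_smul]
      exact pow_eq_zero_iff two_ne_zero |>.1 h9
    have h10 : a * s 1 = 0 := by rw [← smul_eq_mul, ← map_smul, h8, map_zero]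
    rw [h7.mul_left_eq_zero.1 h10, zero_mul]

end Pool.Agent.Results.MP_72b677_al.Equality
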