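import Pool.Agent.MP_72b677_al.H37.Core

/-!
A finite-dimensional local algebra `A` with socle of length one and
`l(Der_k(A, A)) < l(A) - l(socle A)`.
-/

namespace Pool.Agent.Results.MP_72b677_al.Gorenstein

theorem result (k : Type) [Field k] [CharZero k] :
    ∃ (A : Type) (_ : CommRing A) (_ : Algebra k A) (_ : IsLocalRing A) (_ : Module.Finite k A),
      Function.Surjective (algebraMap k (IsLocalRing.ResidueField A)) ∧
      Module.length A (Submodule.torsionBySet A A (IsLocalRing.maximalIdeal A)) = 1 ∧
      Module.length A (Derivation k A A) <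
        Module.length A A -
          Module.length A (Submodule.torsionBySet A A (IsLocalRing.maximalIdeal A)) := by
  obtain ⟨A, _, _, _, _, h1, h2, h3, -⟩ := Pool.Agent.MP_72b677_al.H37.core k
  exact ⟨A, _, _, ‹_›, ‹_›, h1, h2, by rwa [h2, lt_tsub_iff_right]⟩

end Pool.Agent.Results.MP_72b677_al.Gorenstein
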